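import Pool.Agent.H743.X17.IsoStm
import Pool.Agent.H743.X17.Kit
import Pool.Graph.R_seed8.Y809.BSD14.Tam3

/-!
# Tamagawa numbers of type `I₀*` at odd primes: curves with a rational point of order two

`(2 y + a₁ x)² = 4 x³ + b₂ x² + 4 a₄ x + 4 a₆`.  With `X = 4 x + s`, `Y = 4 (2 y + a₁ x)`,
`Y² = X (X² + a N X + b N²)`, where `q ∥ N` and `b (a² - 4 b)` is prime to `q`.
-/

set_option autoImplicit false
set_option linter.all false

open scoped Classical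

open WeierstrassCurve

namespace Pool.Agent.H588.I17

open Pool.Agent.Y700 (SingRed E0 tam PtP)
open Pool.Agent.Y809.BSD14 (index_of t_E0 nadd nsub nmul npow nneg ladd lneg lsub lmul lmul'
  norm_nat_eq_one norm_two_pow norm_le_inv norm_M M_lt M_pos M_ne norm2 norm4 norm16 nnat)

section crd

variable {K : Type} [Field K] [DecidableEq K]

/-- the form of the equation -/
structure IsQ (V : WeierstrassCurve.Affine K) (s α β : K) : Prop where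
  a3 : V.a₃ = 0
  b2 : V.a₁ ^ 2 + 4 * V.a₂ = α + 3 * s
  a4 : 16 * V.a₄ = β + 3 * s ^ 2 + 2 * s * α
  a6 : 64 * V.a₆ = s ^ 3 + α * s ^ 2 + β * s

variable {V : WeierstrassCurve.Affine K} {s α β : K}

theorem IsQ.eqn (h : IsQ V s α β) {x y : K} (hE : V.Equation x y) :
    (4 * (2 * y + V.a₁ * x)) ^ 2 = (4 * x + s) ^ 3 + α * (4 * x + s) ^ 2 + β * (4 * x + s) := by
  rw [Affine.equation_iff, h.a3] at hE
  linear_combination 64 * hE + 16 * x ^ 2 * h.b2 + 4 * x * h.a4 + h.a6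

theorem IsQ.eqn' (h : IsQ V s α β) (h2 : (2 : K) ≠ 0) {x y : K}
    (hE : (4 * (2 * y + V.a₁ * x)) ^ 2 =
      (4 * x + s) ^ 3 + α * (4 * x + s) ^ 2 + β * (4 * x + s)) : V.Equation x y := by
  rw [Affine.equation_iff, h.a3]
  have h64 : (64 : K) ≠ 0 := by
    have : (64 : K) = 2 ^ 6 := by norm_num
    rw [this]
    exact pow_ne_zero _ h2
  apply mul_left_cancel₀ h64
  linear_combination hE - 16 * x ^ 2 * h.b2 - 4 * x * h.a4 - h.a6

theorem IsQ.fx (h : IsQ V s α β) (x y : K) :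
    16 * (V.a₁ * y - (3 * x ^ 2 + 2 * V.a₂ * x + V.a₄)) =
    2 * V.a₁ * (4 * (2 * y + V.a₁ * x)) -
      (3 * (4 * x + s) ^ 2 + 2 * α * (4 * x + s) + β) := by
  linear_combination (-8 * x) * h.b2 - h.a4

/-- the point `P` has the coordinates `X = 4 x + s`, `Y = 4 (2 y + a₁ x)` -/
def At (s : K) (P : V.Point) (X Y : K) : Prop :=
  ∃ (x y : K) (h : V.Nonsingular x y), P = Affine.Point.some x y h ∧ X = 4 * x + s ∧
    Y = 4 * (2 * y + V.a₁ * x)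

theorem At.eqn (hV : IsQ V s α β) {P : V.Point} {X Y : K} (h : At s P X Y) :
    Y ^ 2 = X ^ 3 + α * X ^ 2 + β * X := by
  obtain ⟨x, y, hn, rfl, rfl, rfl⟩ := h
  exact hV.eqn hn.1

theorem exists_at {P : V.Point} (s : K) (h : P ≠ 0) : ∃ X Y, At s P X Y := by
  rcases P with _ | ⟨x, y, hn⟩
  · exact absurd rfl h
  · exact ⟨_, _, x, y, hn, rfl, rfl, rfl⟩

theorem At.ext (h2 : (2 : K) ≠ 0) {P P' : V.Point} {X Y : K} (h : At s P X Y)
    (h' : At s P' X Y) : P = P' := by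
  obtain ⟨x, y, hn, rfl, e1, e2⟩ := h
  obtain ⟨x', y', hn', rfl, e1', e2'⟩ := h'
  have hx : x = x' := by
    have h3 : (2 ^ 2 : K) * x = 2 ^ 2 * x' := by linear_combination e1' - e1
    exact mul_left_cancel₀ (pow_ne_zero 2 h2) h3
  have hy : y = y' := by
    have h3 : (2 ^ 3 : K) * y = 2 ^ 3 * y' := by rw [hx] at e2; linear_combination e2' - e2
    exact mul_left_cancel₀ (pow_ne_zero 3 h2) h3
  subst hx hy
  rfl

theorem At.neg (hV : IsQ V s α β) {P : V.Point} {X Y : K} (h : At s P X Y) :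
    At s (-P) X (-Y) := by
  obtain ⟨x, y, hn, rfl, rfl, rfl⟩ := h
  rw [Affine.Point.neg_some]
  refine ⟨_, _, _, rfl, rfl, ?_⟩
  rw [WeierstrassCurve.Affine.negY, hV.a3]
  ring

/-- the points of order two -/
theorem exists_two (hV : IsQ V s α β) (h2 : (2 : K) ≠ 0) {e : K}
    (he : e ^ 3 + α * e ^ 2 + β * e = 0) (hd : 3 * e ^ 2 + 2 * α * e + β ≠ 0) :
    ∃ P : V.Point, At s P e 0 := by
  have h4 : (4 : K) ≠ 0 := by
    have : (4 : K) = 2 ^ 2 := by norm_num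
    rw [this]
    exact pow_ne_zero _ h2
  obtain ⟨x, hx⟩ : ∃ x : K, e = 4 * x + s := ⟨(e - s) / 4, by field_simp; ring⟩
  obtain ⟨y, hy⟩ : ∃ y : K, 2 * y + V.a₁ * x = 0 := ⟨-(V.a₁ * x) / 2, by field_simp; ring⟩
  have hq : V.Equation x y := by
    apply hV.eqn' h2
    rw [← hx, hy, he]
    ring
  have hn : V.Nonsingular x y := by
    rw [Affine.nonsingular_iff]
    refine ⟨hq, Or.inl ?_⟩
    intro hcon
    have hf := hV.fx x y
    rw [hcon, sub_self, mul_zero, ← hx, hy] at hf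
    apply hd
    linear_combination hf
  exact ⟨Affine.Point.some x y hn, x, y, hn, rfl, hx, by rw [hy, mul_zero]⟩

theorem At.add (hV : IsQ V s α β) (h2 : (2 : K) ≠ 0) {P P' : V.Point} {X Y X' Y' : K}
    (h : At s P X Y) (h' : At s P' X' Y') (hne : X ≠ X') :
    ∃ Y3, At s (P + P') (((Y - Y') / (X - X')) ^ 2 - α - X - X') Y3 := by
  obtain ⟨x, y, hn, rfl, rfl, rfl⟩ := h
  obtain ⟨x', y', hn', rfl, rfl, rfl⟩ := h'
  have hx : x ≠ x' := fun h => hne (by rw [h])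
  rw [Affine.Point.add_of_X_ne hx]
  refine ⟨_, _, _, _, rfl, ?_, rfl⟩
  rw [WeierstrassCurve.Affine.addX, WeierstrassCurve.Affine.slope_of_X_ne hx]
  have h1 : x - x' ≠ 0 := sub_ne_zero.2 hx
  have h4 : (4 : K) ≠ 0 := by
    have : (4 : K) = 2 ^ 2 := by norm_num
    rw [this]
    exact pow_ne_zero _ h2
  have h5 : (4 * (2 * y + V.a₁ * x) - 4 * (2 * y' + V.a₁ * x')) /
      ((4 * x + s) - (4 * x' + s)) = 2 * ((y - y') / (x - x')) + V.a₁ := by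
    have h6 : (4 * x + s) - (4 * x' + s) = 4 * (x - x') := by ring
    rw [h6]
    field_simp
    ring
  rw [h5]
  linear_combination hV.b2

/-- translation by a point of order two with the coordinates `(e, 0)` -/
theorem At.addT (hV : IsQ V s α β) (h2 : (2 : K) ≠ 0) {P T : V.Point} {X Y e : K}
    (h : At s P X Y) (hT : At s T e 0) (hX : X ≠ e) : ∃ X3 Y3, At s (P + T) X3 Y3 ∧
      (X3 - e) * (X - e) = 3 * e ^ 2 + 2 * α * e + β := by
  obtain ⟨Y3, h3⟩ := h.add hV h2 hT hX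
  refine ⟨_, Y3, h3, ?_⟩
  have e0 := h.eqn hV
  have eT := hT.eqn hV
  have hXe : X - e ≠ 0 := sub_ne_zero.2 hX
  rw [sub_zero]
  obtain ⟨L, hL⟩ : ∃ L : K, L = Y / (X - e) := ⟨_, rfl⟩
  have hL1 : L * (X - e) = Y := by rw [hL, div_mul_cancel₀ _ hXe]
  rw [← hL]
  have e3 : L ^ 2 * (X - e) = X ^ 2 + (α + e) * X + (e ^ 2 + α * e + β) := by
    apply mul_right_cancel₀ hXe
    rw [← hL1] at e0
    linear_combination e0 - eT
  linear_combination e3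

theorem two_tors (hV : IsQ V s α β) (h2 : (2 : K) ≠ 0) {T : V.Point} {e : K}
    (hT : At s T e 0) : T + T = 0 := by
  have h1 : At s (-T) e 0 := by simpa using hT.neg hV
  have h3 : T = -T := hT.ext h2 h1
  calc T + T = T + -T := by rw [← h3]
    _ = 0 := add_neg_cancel T

end crd

/-- the form of the equation over the integers -/
structure IsG (W : WeierstrassCurve ℤ) (s α β : ℤ) : Prop where
  a3 : W.a₃ = 0
  b2 : W.b₂ = α + 3 * s
  a4 : 16 * W.a₄ = β + 3 * s ^ 2 + 2 * s * α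
  a6 : 64 * W.a₆ = s ^ 3 + α * s ^ 2 + β * s

section

variable {q : ℕ} [Fact q.Prime] {W : WeierstrassCurve ℤ} {N s a b : ℤ}

theorem isQ {s α β : ℤ} (h : IsG W s α β) :
    IsQ ((W.map (Int.castRingHom ℚ_[q])).toAffine) (s : ℚ_[q]) (α : ℚ_[q]) (β : ℚ_[q]) := by
  have h2 := h.b2
  rw [WeierstrassCurve.b₂] at h2
  have h4 := h.a4
  have h6 := h.a6
  refine ⟨?_, ?_, ?_, ?_⟩
  · show ((W.a₃ : ℤ) : ℚ_[q]) = 0
    rw [h.a3, Int.cast_zero]
  · show ((W.a₁ : ℤ) : ℚ_[q]) ^ 2 + 4 * ((W.a₂ : ℤ) : ℚ_[q]) = (α : ℚ_[q]) + 3 * (s : ℚ_[q])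
    exact_mod_cast h2
  · show 16 * ((W.a₄ : ℤ) : ℚ_[q]) = (β : ℚ_[q]) + 3 * (s : ℚ_[q]) ^ 2 + 2 * (s : ℚ_[q]) * α
    exact_mod_cast h4
  · show 64 * ((W.a₆ : ℤ) : ℚ_[q]) = (s : ℚ_[q]) ^ 3 + α * (s : ℚ_[q]) ^ 2 + β * s
    exact_mod_cast h6

theorem nint (k : ℤ) : ‖(k : ℚ_[q])‖ ≤ 1 := Padic.norm_int_le_one k

/-- singular reduction in the coordinates `X`, `Y` -/
theorem sing_XY {s α β : ℤ} (h : IsG W s α β) (hq2 : q ≠ 2) (x y : ℚ_[q]) :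
    SingRed W q x y ↔ ‖4 * x + (s : ℚ_[q])‖ ≤ 1 ∧ ‖4 * (2 * y + (W.a₁ : ℚ_[q]) * x)‖ < 1 ∧
      ‖3 * (4 * x + (s : ℚ_[q])) ^ 2 + 2 * (α : ℚ_[q]) * (4 * x + (s : ℚ_[q])) +
        (β : ℚ_[q])‖ < 1 := by
  have hV := isQ (q := q) h
  have e2 := hV.fx x y
  have n4 := norm4 hq2
  have n2' := norm2 hq2
  have n16 := norm16 hq2
  have c3 : ((W.a₃ : ℤ) : ℚ_[q]) = 0 := by rw [h.a3, Int.cast_zero]
  have e3 : 16 * ((W.a₁ : ℚ_[q]) * y - (3 * x ^ 2 + 2 * (W.a₂ : ℚ_[q]) * x + (W.a₄ : ℚ_[q]))) =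
      2 * (W.a₁ : ℚ_[q]) * (4 * (2 * y + (W.a₁ : ℚ_[q]) * x)) -
      (3 * (4 * x + (s : ℚ_[q])) ^ 2 + 2 * (α : ℚ_[q]) * (4 * x + (s : ℚ_[q])) +
        (β : ℚ_[q])) := e2
  have hA := nint (q := q) W.a₁
  have hs := nint (q := q) s
  constructor
  · rintro ⟨hx, hy, hfx, hfy⟩
    rw [c3, add_zero] at hfy
    have hY : ‖4 * (2 * y + (W.a₁ : ℚ_[q]) * x)‖ < 1 := by rw [norm_mul, n4, one_mul]; exact hfy
    refine ⟨nadd (nmul n4.le hx) hs, hY, ?_⟩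
    have h1 := lmul (a := (16 : ℚ_[q])) n16.le hfx
    rw [e3] at h1
    have h2 := lsub (lmul (a := 2 * (W.a₁ : ℚ_[q])) (nmul n2'.le hA) hY) h1
    rw [sub_sub_cancel] at h2
    exact h2
  · rintro ⟨hX, hY, hF⟩
    have hx : ‖x‖ ≤ 1 := by
      have h1 : ‖4 * x‖ = ‖x‖ := by rw [norm_mul, n4, one_mul]
      rw [← h1]
      have : 4 * x = (4 * x + (s : ℚ_[q])) - (s : ℚ_[q]) := by ring
      rw [this]
      exact nsub hX hs
    have hY' := hY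
    rw [norm_mul, n4, one_mul] at hY'
    have hy : ‖y‖ ≤ 1 := by
      have h1 : ‖2 * y‖ = ‖y‖ := by rw [norm_mul, n2', one_mul]
      rw [← h1]
      have : 2 * y = (2 * y + (W.a₁ : ℚ_[q]) * x) - (W.a₁ : ℚ_[q]) * x := by ring
      rw [this]
      exact nsub hY'.le (nmul hA hx)
    refine ⟨hx, hy, ?_, ?_⟩
    · have h1 : ‖16 * ((W.a₁ : ℚ_[q]) * y -
          (3 * x ^ 2 + 2 * (W.a₂ : ℚ_[q]) * x + (W.a₄ : ℚ_[q])))‖ < 1 := by
        rw [e3]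
        exact lsub (lmul (nmul n2'.le hA) hY) hF
      rw [norm_mul, n16, one_mul] at h1
      exact h1
    · rw [c3, add_zero]
      exact hY'

/-- membership in `E⁰` -/
theorem mem_E0 {s α β : ℤ} (h : IsG W s α β) (hq2 : q ≠ 2) {P : PtP W q} {X Y : ℚ_[q]}
    (hP : At (s : ℚ_[q]) P X Y) : P ∉ E0 W q ↔ ‖X‖ ≤ 1 ∧ ‖Y‖ < 1 ∧
      ‖3 * X ^ 2 + 2 * (α : ℚ_[q]) * X + (β : ℚ_[q])‖ < 1 := by
  obtain ⟨x, y, hn, rfl, rfl, rfl⟩ := hP
  have h0 := sing_XY (q := q) h hq2 x y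
  have h1 : (Affine.Point.some x y hn : PtP W q) ∉ E0 W q ↔ SingRed W q x y := by
    rw [t_E0]
    constructor
    · intro h1
      push Not at h1
      obtain ⟨x', y', h', e, hs⟩ := h1
      injection e with e1 e2
      rw [e1, e2]
      exact hs
    · intro hs h1
      exact h1 x y hn rfl hs
  rw [h1, h0]
  rfl

theorem parity' (Y : ℚ_[q]) (k : ℕ) : ‖Y‖ ^ 2 ≠ ((q : ℝ)⁻¹) ^ (2 * k + 1) := by
  have hq : (1 : ℝ) < q := by exact_mod_cast (Fact.out : q.Prime).one_lt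
  intro h
  rcases eq_or_ne Y 0 with rfl | hY
  · rw [norm_zero] at h
    have : (0 : ℝ) < ((q : ℝ)⁻¹) ^ (2 * k + 1) := by positivity
    rw [← h] at this
    norm_num at this
  · rw [Padic.norm_eq_zpow_neg_valuation hY, ← zpow_natCast, ← zpow_mul, inv_pow,
      ← zpow_natCast, ← zpow_neg] at h
    have := zpow_right_injective₀ (by linarith) hq.ne' h
    push_cast at this
    omega

variable (h : IsG W s (a * N) (b * N ^ 2)) (hq2 : q ≠ 2) (hM : ‖(N : ℚ_[q])‖ = (q : ℝ)⁻¹)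

include h in
theorem isQ' : IsQ ((W.map (Int.castRingHom ℚ_[q])).toAffine) (s : ℚ_[q])
    ((a : ℚ_[q]) * N) ((b : ℚ_[q]) * (N : ℚ_[q]) ^ 2) := by
  have h1 := isQ (q := q) h
  push_cast at h1
  exact h1

include h hq2 hM

/-- the points outside `E⁰` are those with `|X| < 1` -/
theorem memX {P : PtP W q} {X Y : ℚ_[q]} (hP : At (s : ℚ_[q]) P X Y) :
    P ∉ E0 W q ↔ ‖X‖ < 1 := by
  have he := hP.eqn (isQ' (q := q) h)
  have hm := M_lt hM
  have ia := nint (q := q) a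
  have ib := nint (q := q) b
  have i2 : ‖(2 : ℚ_[q])‖ ≤ 1 := by exact_mod_cast nint (q := q) 2
  have i3 : ‖(3 : ℚ_[q])‖ ≤ 1 := by exact_mod_cast nint (q := q) 3
  rw [mem_E0 h hq2 hP]
  push_cast
  constructor
  · rintro ⟨hX, hY, -⟩
    have h3 : ‖X ^ 3‖ < 1 := by
      have e : X ^ 3 = Y * Y - (a * X ^ 2 + b * N * X) * N := by
        linear_combination -he
      rw [e]
      exact lsub (lmul hY.le hY) (lmul (nadd (nmul ia (npow hX 2)) (nmul (nmul ib hm.le) hX)) hm)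
    rw [norm_pow] at h3
    by_contra h
    rw [not_lt] at h
    have := one_le_pow₀ h (n := 3)
    linarith
  · intro hX
    have hX2 : ‖X ^ 2‖ < 1 := by
      rw [pow_two]
      exact lmul hX.le hX
    have hm2 : ‖(N : ℚ_[q]) ^ 2‖ < 1 := by
      rw [pow_two]
      exact lmul hm.le hm
    refine ⟨hX.le, ?_, ?_⟩
    · have h1 : ‖Y ^ 2‖ < 1 := by
        rw [he]
        refine ladd (ladd ?_ (lmul (nmul ia hm.le) hX2)) (lmul (nmul ib (npow hm.le 2)) hX)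
        rw [pow_succ]
        exact lmul hX2.le hX
      rw [norm_pow] at h1
      by_contra h
      rw [not_lt] at h
      have := one_le_pow₀ h (n := 2)
      linarith
    · exact ladd (ladd (lmul i3 hX2) (lmul (nmul i2 (nmul ia hm.le)) hX)) (lmul ib hm2)

/-- translation by a point of order two -/
theorem trans {r t Y : ℚ_[q]} {P T : PtP W q} (hc : ‖3 * r ^ 2 + 2 * a * r + b‖ = 1)
    (hr1 : ‖r‖ ≤ 1) (hP : At (s : ℚ_[q]) P (N * t) Y) (hT : At (s : ℚ_[q]) T (N * r) 0)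
    (htr : ‖t - r‖ < 1) (hroot : r ^ 3 + a * r ^ 2 + b * r = 0) : P + T ∈ E0 W q := by
  have hV := isQ' (q := q) h
  have hm0 := M_ne hM
  have hml := M_lt hM
  have hmp := M_pos hM
  have h2 : (2 : ℚ_[q]) ≠ 0 := two_ne_zero
  have htr' := norm_le_inv q htr
  by_cases he : t = r
  · have hY : Y = 0 := by
      have h3 := hP.eqn hV
      rw [he] at h3
      have h4 : Y ^ 2 = 0 := by
        rw [h3]
        linear_combination (N : ℚ_[q]) ^ 3 * hroot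
      exact pow_eq_zero_iff two_ne_zero |>.1 h4
    rw [hY, he] at hP
    rw [hP.ext h2 hT, two_tors hV h2 hT]
    exact AddSubgroup.zero_mem _
  · obtain ⟨X3, Y3, h3, h4⟩ := hP.addT hV h2 hT (fun hh => he (mul_left_cancel₀ hm0 hh))
    have htr0 : t - r ≠ 0 := sub_ne_zero.2 he
    have e5 : (X3 - N * r) * (t - r) = N * (3 * r ^ 2 + 2 * a * r + b) := by
      apply mul_left_cancel₀ hm0
      linear_combination h4
    have e6 : ‖X3 - N * r‖ * ‖t - r‖ = (q : ℝ)⁻¹ := by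
      rw [← norm_mul, e5, norm_mul, hM, hc, mul_one]
    by_contra hcon
    have h5 := (memX h hq2 hM h3).1 hcon
    have h6 : ‖X3 - N * r‖ < 1 := lsub h5 (lmul' hml hr1)
    have h8 : 0 < ‖t - r‖ := norm_pos_iff.2 htr0
    have h9 : ‖X3 - N * r‖ * ‖t - r‖ < 1 * ‖t - r‖ := mul_lt_mul_of_pos_right h6 h8
    rw [e6, one_mul] at h9
    exact absurd htr' (not_le.2 h9)

/-- the points outside `E⁰` in the coordinate `t = X / N` -/
theorem par {P : PtP W q} (hP : P ∉ E0 W q) : ∃ t Y : ℚ_[q], At (s : ℚ_[q]) P (N * t) Y ∧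
    ‖t‖ ≤ 1 ∧ ‖t * (t ^ 2 + a * t + b)‖ < 1 := by
  have hV := isQ' (q := q) h
  have hm := M_lt hM
  have hm0 := M_ne hM
  have hmp := M_pos hM
  have ia := nint (q := q) a
  have ib := nint (q := q) b
  have hP0 : P ≠ 0 := fun h0 => hP (by rw [h0]; exact zero_mem _)
  obtain ⟨X, Y, hat⟩ := exists_at (s : ℚ_[q]) hP0
  have hX := (memX h hq2 hM hat).1 hP
  obtain ⟨t, rfl⟩ : ∃ t : ℚ_[q], X = N * t := ⟨X / N, by rw [mul_div_cancel₀ _ hm0]⟩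
  have ht1 : ‖t‖ ≤ 1 := by
    have h1 := norm_le_inv q hX
    rw [norm_mul, ← hM] at h1
    by_contra h
    rw [not_le] at h
    nlinarith
  have he : ‖Y‖ ^ 2 = (q : ℝ)⁻¹ ^ 3 * ‖t * (t ^ 2 + a * t + b)‖ := by
    have h3 := hat.eqn hV
    have h4 : ((N : ℚ_[q]) * t) ^ 3 + (a : ℚ_[q]) * N * ((N : ℚ_[q]) * t) ^ 2 +
        (b : ℚ_[q]) * (N : ℚ_[q]) ^ 2 * ((N : ℚ_[q]) * t) =
        N ^ 3 * (t * (t ^ 2 + a * t + b)) := by ring
    rw [h4] at h3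
    rw [← norm_pow, h3, norm_mul, norm_pow, hM]
  refine ⟨t, Y, hat, ht1, ?_⟩
  have h3 : ‖t * (t ^ 2 + a * t + b)‖ ≤ 1 :=
    nmul ht1 (nadd (nadd (npow ht1 2) (nmul ia ht1)) ib)
  refine lt_of_le_of_ne h3 fun h4 => ?_
  rw [h4, mul_one] at he
  exact parity' Y 1 he

/-- no root of `t² + a t + b` modulo `q` -/
theorem tam_two (hb : ‖(b : ℚ_[q])‖ = 1)
    (hno : ∀ t : ℚ_[q], ‖t‖ ≤ 1 → ¬ ‖t ^ 2 + a * t + b‖ < 1) : tam W q = 2 := by
  have hV := isQ' (q := q) h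
  have hm0 := M_ne hM
  have h2 : (2 : ℚ_[q]) ≠ 0 := two_ne_zero
  have hb0 : (b : ℚ_[q]) ≠ 0 := by
    intro h0
    rw [h0, norm_zero] at hb
    exact zero_ne_one hb
  have i0 : ‖(0 : ℚ_[q])‖ ≤ 1 := by rw [norm_zero]; norm_num
  obtain ⟨T0, hT0⟩ := exists_two hV h2 (e := N * 0) (by ring) (by
    have : 3 * ((N : ℚ_[q]) * 0) ^ 2 + 2 * (a * N) * (N * 0) + b * (N : ℚ_[q]) ^ 2 =
      b * (N : ℚ_[q]) ^ 2 := by ring
    rw [this]
    exact mul_ne_zero hb0 (pow_ne_zero _ hm0))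
  have a0 := two_tors hV h2 hT0
  have b0 : T0 ∉ E0 W q := (memX h hq2 hM hT0).2 (lmul' (M_lt hM) i0)
  rw [Pool.Agent.Y700.tam]
  apply index_of (E0 W q) ![0, T0]
  · intro i
    fin_cases i
    · exact add_zero _
    · exact a0
  · intro P
    by_cases hP : P ∈ E0 W q
    · exact ⟨0, by simpa using hP⟩
    obtain ⟨t, Y, hat, ht1, ht2⟩ := par h hq2 hM hP
    have ht : ‖t‖ < 1 := by
      by_contra hcon
      have h1 : ‖t‖ = 1 := le_antisymm ht1 (not_lt.1 hcon)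
      rw [norm_mul, h1, one_mul] at ht2
      exact hno t ht1 ht2
    refine ⟨1, trans h hq2 hM (r := 0) ?_ i0 hat hT0 (by rwa [sub_zero]) (by ring)⟩
    have : 3 * (0 : ℚ_[q]) ^ 2 + 2 * a * 0 + b = b := by ring
    rw [this]
    exact hb
  · intro i j hij
    fin_cases i <;> fin_cases j <;> first | rfl | (exfalso; simp at hij; exact b0 hij)

/-- three roots -/
theorem tam_four (hb : ‖(b : ℚ_[q])‖ = 1) {r₁ r₂ : ℚ_[q]} (hr₁ : ‖r₁‖ ≤ 1) (hr₂ : ‖r₂‖ ≤ 1)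
    (hsum : r₁ + r₂ = -a) (hprod : r₁ * r₂ = b) (hdiff : ‖r₁ - r₂‖ = 1) : tam W q = 4 := by
  have hV := isQ' (q := q) h
  have hm := M_lt hM
  have hm0 := M_ne hM
  have h2 : (2 : ℚ_[q]) ≠ 0 := two_ne_zero
  have hu : ‖r₁‖ * ‖r₂‖ = 1 := by rw [← norm_mul, hprod, hb]
  have hu₁ : ‖r₁‖ = 1 := by
    apply le_antisymm hr₁
    nlinarith [norm_nonneg r₁, norm_nonneg r₂]
  have hu₂ : ‖r₂‖ = 1 := by
    apply le_antisymm hr₂
    nlinarith [norm_nonneg r₁, norm_nonneg r₂]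
  have i0 : ‖(0 : ℚ_[q])‖ ≤ 1 := by rw [norm_zero]; norm_num
  have ha : (a : ℚ_[q]) = -(r₁ + r₂) := by rw [hsum, neg_neg]
  have hb' : (b : ℚ_[q]) = r₁ * r₂ := hprod.symm
  have c0 : ‖3 * (0 : ℚ_[q]) ^ 2 + 2 * a * 0 + b‖ = 1 := by
    have : 3 * (0 : ℚ_[q]) ^ 2 + 2 * a * 0 + b = b := by ring
    rw [this]
    exact hb
  have c1 : ‖3 * r₁ ^ 2 + 2 * a * r₁ + b‖ = 1 := by
    have : 3 * r₁ ^ 2 + 2 * a * r₁ + b = r₁ * (r₁ - r₂) := by rw [ha, hb']; ring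
    rw [this, norm_mul, hu₁, hdiff, mul_one]
  have c2 : ‖3 * r₂ ^ 2 + 2 * a * r₂ + b‖ = 1 := by
    have : 3 * r₂ ^ 2 + 2 * a * r₂ + b = -(r₂ * (r₁ - r₂)) := by rw [ha, hb']; ring
    rw [this, norm_neg, norm_mul, hu₂, hdiff, mul_one]
  have s0 : (0 : ℚ_[q]) ^ 3 + a * 0 ^ 2 + b * 0 = 0 := by ring
  have s1 : r₁ ^ 3 + a * r₁ ^ 2 + b * r₁ = 0 := by rw [ha, hb']; ring
  have s2 : r₂ ^ 3 + a * r₂ ^ 2 + b * r₂ = 0 := by rw [ha, hb']; ring
  have ne_of : ∀ {x : ℚ_[q]}, ‖x‖ = 1 → x ≠ 0 := by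
    intro x hx h0
    rw [h0, norm_zero] at hx
    exact zero_ne_one hx
  have mk : ∀ r : ℚ_[q], ‖3 * r ^ 2 + 2 * a * r + b‖ = 1 → r ^ 3 + a * r ^ 2 + b * r = 0 →
      ∃ T : PtP W q, At (s : ℚ_[q]) T (N * r) 0 := by
    intro r hc hs
    refine exists_two hV h2 (e := N * r) (by linear_combination (N : ℚ_[q]) ^ 3 * hs) ?_
    have : 3 * ((N : ℚ_[q]) * r) ^ 2 + 2 * (a * N) * (N * r) + b * (N : ℚ_[q]) ^ 2 =
      (3 * r ^ 2 + 2 * a * r + b) * (N : ℚ_[q]) ^ 2 := by ring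
    rw [this]
    exact mul_ne_zero (ne_of hc) (pow_ne_zero _ hm0)
  obtain ⟨T0, hT0⟩ := mk 0 c0 s0
  obtain ⟨T1, hT1⟩ := mk r₁ c1 s1
  obtain ⟨T2, hT2⟩ := mk r₂ c2 s2
  have a0 := two_tors hV h2 hT0
  have a1 := two_tors hV h2 hT1
  have a2 := two_tors hV h2 hT2
  have b0 : T0 ∉ E0 W q := (memX h hq2 hM hT0).2 (lmul' hm i0)
  have b1 : T1 ∉ E0 W q := (memX h hq2 hM hT1).2 (lmul' hm hr₁)
  have b2 : T2 ∉ E0 W q := (memX h hq2 hM hT2).2 (lmul' hm hr₂)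
  have d01 : (0 : ℚ_[q]) ≠ r₁ := (ne_of hu₁).symm
  have d02 : (0 : ℚ_[q]) ≠ r₂ := (ne_of hu₂).symm
  have d12 : r₁ ≠ r₂ := sub_ne_zero.1 (ne_of hdiff)
  -- the sums
  have key : ∀ (e e' e'' : ℚ_[q]) (T T' T'' : PtP W q), At (s : ℚ_[q]) T (N * e) 0 →
      At (s : ℚ_[q]) T' (N * e') 0 → T'' ∉ E0 W q → At (s : ℚ_[q]) T'' (N * e'') 0 → e ≠ e' →
      (e'' - e') * (e - e') = 3 * e' ^ 2 + 2 * a * e' + b → T + T' ∉ E0 W q := by
    intro e e' e'' T T' T'' k k' hn k'' hne hr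
    obtain ⟨X3, Y3, h3, h4⟩ := k.addT hV h2 k' (fun hh => hne (mul_left_cancel₀ hm0 hh))
    have h5 : X3 = N * e'' := by
      have h6 : (X3 - N * e'') * (N * (e - e')) = 0 := by
        linear_combination h4 - (N : ℚ_[q]) ^ 2 * hr
      have h7 : (N : ℚ_[q]) * (e - e') ≠ 0 := mul_ne_zero hm0 (sub_ne_zero.2 hne)
      exact sub_eq_zero.1 ((mul_eq_zero.1 h6).resolve_right h7)
    rw [memX h hq2 hM h3, h5]
    exact (memX h hq2 hM k'').1 hn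
  have m01 : T0 + T1 ∉ E0 W q := key 0 r₁ r₂ T0 T1 T2 hT0 hT1 b2 hT2 d01 (by
    rw [ha, hb']; ring)
  have m02 : T0 + T2 ∉ E0 W q := key 0 r₂ r₁ T0 T2 T1 hT0 hT2 b1 hT1 d02 (by
    rw [ha, hb']; ring)
  have m12 : T1 + T2 ∉ E0 W q := key r₁ r₂ 0 T1 T2 T0 hT1 hT2 b0 hT0 d12 (by
    rw [ha, hb']; ring)
  have m10 : T1 + T0 ∉ E0 W q := by rwa [add_comm]
  have m20 : T2 + T0 ∉ E0 W q := by rwa [add_comm]
  have m21 : T2 + T1 ∉ E0 W q := by rwa [add_comm]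
  rw [Pool.Agent.Y700.tam]
  apply index_of (E0 W q) ![0, T0, T1, T2]
  · intro i
    fin_cases i
    · exact add_zero _
    · exact a0
    · exact a1
    · exact a2
  · intro P
    by_cases hP : P ∈ E0 W q
    · exact ⟨0, by simpa using hP⟩
    obtain ⟨t, Y, hat, ht1, ht2⟩ := par h hq2 hM hP
    have hfac : t ^ 2 + a * t + b = (t - r₁) * (t - r₂) := by rw [ha, hb']; ring
    rw [hfac, norm_mul, norm_mul] at ht2
    by_cases h0 : ‖t‖ < 1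
    · exact ⟨1, trans h hq2 hM (r := 0) c0 i0 hat hT0 (by rwa [sub_zero]) s0⟩
    by_cases h1 : ‖t - r₁‖ < 1
    · exact ⟨2, trans h hq2 hM c1 hr₁ hat hT1 h1 s1⟩
    by_cases h3 : ‖t - r₂‖ < 1
    · exact ⟨3, trans h hq2 hM c2 hr₂ hat hT2 h3 s2⟩
    exfalso
    rw [not_lt] at h0 h1 h3
    have := one_le_mul_of_one_le_of_one_le h0 (one_le_mul_of_one_le_of_one_le h1 h3)
    linarith
  · intro i j hij
    fin_cases i <;> fin_cases j <;> first | rfl | (exfalso; simp at hij; first | exact b0 hij | exact b1 hij | exact b2 hij | exact m01 hij | exact m02 hij | exact m12 hij | exact m10 hij | exact m20 hij | exact m21 hij)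

end

/-- **Type `I₀*` with a rational point of order two**: `q` odd, `q ∥ N`. -/
theorem tam_gen {W : WeierstrassCurve ℤ} {N s a b : ℤ} {q : ℕ} [Fact q.Prime]
    (h : IsG W s (a * N) (b * N ^ 2)) (hq2 : q ≠ 2) (h1 : (q : ℤ) ∣ N) (h2 : ¬ (q : ℤ) ^ 2 ∣ N)
    (hb : ¬ (q : ℤ) ∣ b) (hD : ¬ (q : ℤ) ∣ a ^ 2 - 4 * b) :
    tam W q = if jacobiSym (a ^ 2 - 4 * b) q = 1 then 4 else 2 := by
  have hM := norm_M q h1 h2
  have unit : ∀ {k : ℤ}, ¬ (q : ℤ) ∣ k → ‖(k : ℚ_[q])‖ = 1 := by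
    intro k hk
    rcases (nint (q := q) k).lt_or_eq with h3 | h3
    · exact absurd (Padic.norm_intCast_lt_one_iff.1 h3) hk
    · exact h3
  have hbn := unit hb
  have hDn := unit hD
  have n2 := norm2 (q := q) hq2
  have n4 := norm4 (q := q) hq2
  have ia := nint (q := q) a
  have h20 : (2 : ℚ_[q]) ≠ 0 := two_ne_zero
  split_ifs with hj
  · obtain ⟨w, hw⟩ := Pool.Agent.H468.X15.sq_of_jac hq2 hD hj
    have hwn : ‖w‖ = 1 := by
      have h3 : ‖w‖ * ‖w‖ = 1 := by rw [← norm_mul, ← hw, hDn]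
      nlinarith [norm_nonneg w]
    push_cast at hw
    have e1 : ‖(2 : ℚ_[q])⁻¹‖ ≤ 1 := by rw [norm_inv, n2, inv_one]
    refine tam_four h hq2 hM hbn (r₁ := (-a + w) * 2⁻¹) (r₂ := (-a - w) * 2⁻¹)
      (nmul (nadd (nneg ia) hwn.le) e1) (nmul (nsub (nneg ia) hwn.le) e1) ?_ ?_ ?_
    · field_simp
      ring
    · field_simp
      linear_combination hw
    · have : (-(a : ℚ_[q]) + w) * 2⁻¹ - (-a - w) * 2⁻¹ = w := by
        field_simp
        ring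
      rw [this, hwn]
  · refine tam_two h hq2 hM hbn fun t ht hlt => hj ?_
    -- `(2 t + a)² ≡ a² - 4 b`
    have hz : ((a ^ 2 - 4 * b : ℤ) : ZMod q) ≠ 0 := by
      rwa [Ne, ZMod.intCast_zmod_eq_zero_iff_dvd]
    let τ : ℤ_[q] := ⟨t, ht⟩
    have h3 : ‖((2 * τ + (a : ℤ_[q])) ^ 2 - ((a ^ 2 - 4 * b : ℤ) : ℤ_[q]) : ℤ_[q])‖ < 1 := by
      rw [PadicInt.norm_def]
      push_cast
      have h4 : (2 * t + (a : ℚ_[q])) ^ 2 - ((a : ℚ_[q]) ^ 2 - 4 * b) =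
          4 * (t ^ 2 + a * t + b) := by ring
      show ‖(2 * t + (a : ℚ_[q])) ^ 2 - ((a : ℚ_[q]) ^ 2 - 4 * b)‖ < 1
      rw [h4, norm_mul, n4, one_mul]
      exact hlt
    have h5 : PadicInt.toZMod ((2 * τ + (a : ℤ_[q])) ^ 2 - ((a ^ 2 - 4 * b : ℤ) : ℤ_[q])) = 0 := by
      rw [← RingHom.mem_ker, PadicInt.ker_toZMod]
      rw [IsLocalRing.mem_maximalIdeal]
      exact PadicInt.mem_nonunits.2 h3
    rw [map_sub, map_pow, map_intCast, sub_eq_zero] at h5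
    rw [← jacobiSym.legendreSym.to_jacobiSym, legendreSym.eq_one_iff q hz]
    exact ⟨_, by rw [← h5, pow_two]⟩

end Pool.Agent.H588.I17
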