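import Pool.Agent.H588.I17.Gen

/-!
# I17 ITP0 (and ITP1, ITP2)
-/

set_option autoImplicit false
set_option linter.all false

open scoped Classical

namespace Pool.Agent.H588.I17

open Pool.Agent.H743.X17 (IsJ be ga de S_ITP0 S_ITP1 S_ITP2)

theorem ndvd {p : ℕ} (hp : p.Prime) {k : ℤ} (h : Nat.Coprime p k.natAbs) : ¬ (p : ℤ) ∣ k := by
  intro hd
  have h1 : p ∣ k.natAbs := Int.natCast_dvd.1 hd
  have h2 : p ∣ 1 := by
    rw [← Nat.Coprime.gcd_eq_one h]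
    exact Nat.dvd_gcd dvd_rfl h1
  exact hp.one_lt.ne' (Nat.dvd_one.1 h2)

theorem gcd_two_pow {p : ℕ} (hp : p.Prime) (hp2 : p ≠ 2) (k : ℕ) : Nat.Coprime p (2 ^ k) :=
  Nat.Coprime.pow_right k ((Nat.coprime_primes hp Nat.prime_two).2 hp2)

theorem gcd_17 {p : ℕ} (hp : p.Prime) (hp2 : p ≠ 17) : Nat.Coprime p 17 :=
  (Nat.coprime_primes hp (by norm_num)).2 hp2

theorem t_ITP0 : S_ITP0 := by
  intro W N p _ h hp2 hp17 h1 h2
  have hp : p.Prime := Fact.out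
  have hG : IsG W N (30 * N) (289 * N ^ 2) := by
    refine ⟨h.a3, ?_, ?_, ?_⟩
    · rw [h.b2]
      show (33 : ℤ) * N = _
      ring
    · rw [h.a4]
      show 16 * ((22 : ℤ) * N ^ 2) = _
      ring
    · rw [h.a6]
      show 64 * ((5 : ℤ) * N ^ 3) = _
      ring
  have hb : ¬ (p : ℤ) ∣ 289 := by
    refine ndvd hp ?_
    have : (289 : ℤ).natAbs = 17 ^ 2 := by norm_num
    rw [this]
    exact Nat.Coprime.pow_right 2 (gcd_17 hp hp17)
  have hD : ¬ (p : ℤ) ∣ 30 ^ 2 - 4 * 289 := by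
    refine ndvd hp ?_
    have : (30 ^ 2 - 4 * 289 : ℤ).natAbs = 2 ^ 8 := by norm_num
    rw [this]
    exact gcd_two_pow hp hp2 8
  rw [tam_gen hG hp2 h1 h2 hb hD]
  have hodd : Odd p := hp.odd_of_ne_two hp2
  have e1 : jacobiSym (30 ^ 2 - 4 * 289) p = ZMod.χ₄ p := by
    have e2 : (30 ^ 2 - 4 * 289 : ℤ) = (-1) * 16 ^ 2 := by norm_num
    rw [e2, jacobiSym.mul_left, jacobiSym.sq_one', mul_one, jacobiSym.at_neg_one hodd]
    rw [Int.gcd_eq_natAbs]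
    have : (16 : ℤ).natAbs = 2 ^ 4 := by norm_num
    rw [this, Int.natAbs_natCast]
    exact (gcd_two_pow hp hp2 4).symm
  rw [e1]
  rcases Nat.odd_mod_four_iff.1 (Nat.odd_iff.1 hodd) with h4 | h4
  · rw [ZMod.χ₄_nat_one_mod_four h4, if_pos rfl, if_pos h4]
  · rw [ZMod.χ₄_nat_three_mod_four h4, if_neg (by norm_num), if_neg (by omega)]

theorem t_ITP1 : S_ITP1 := by
  intro W N p _ h hp2 hp17 h1 h2
  have hp : p.Prime := Fact.out
  have hG : IsG W 0 (9 * N) (16 * N ^ 2) := by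
    refine ⟨h.a3, ?_, ?_, ?_⟩
    · rw [h.b2]
      show (9 : ℤ) * N = _
      ring
    · rw [h.a4]
      show 16 * ((1 : ℤ) * N ^ 2) = _
      ring
    · rw [h.a6]
      show 64 * ((0 : ℤ) * N ^ 3) = _
      ring
  have hb : ¬ (p : ℤ) ∣ 16 := by
    refine ndvd hp ?_
    have : (16 : ℤ).natAbs = 2 ^ 4 := by norm_num
    rw [this]
    exact gcd_two_pow hp hp2 4
  have hD : ¬ (p : ℤ) ∣ 9 ^ 2 - 4 * 16 := by
    refine ndvd hp ?_
    have : (9 ^ 2 - 4 * 16 : ℤ).natAbs = 17 := by norm_num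
    rw [this]
    exact gcd_17 hp hp17
  rw [tam_gen hG hp2 h1 h2 hb hD]
  have e2 : (9 ^ 2 - 4 * 16 : ℤ) = 17 := by norm_num
  rw [e2]

theorem t_ITP2 : S_ITP2 := by
  intro W N p _ h hp2 hp17 h1 h2
  have hp : p.Prime := Fact.out
  have hG : IsG W N (-66 * N) (1 * N ^ 2) := by
    refine ⟨h.a3, ?_, ?_, ?_⟩
    · rw [h.b2]
      show (-63 : ℤ) * N = _
      ring
    · rw [h.a4]
      show 16 * ((-8 : ℤ) * N ^ 2) = _
      ring
    · rw [h.a6]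
      show 64 * ((-1 : ℤ) * N ^ 3) = _
      ring
  have hb : ¬ (p : ℤ) ∣ 1 := by
    refine ndvd hp ?_
    exact Nat.coprime_one_right p
  have hD : ¬ (p : ℤ) ∣ (-66) ^ 2 - 4 * 1 := by
    refine ndvd hp ?_
    have : ((-66) ^ 2 - 4 * 1 : ℤ).natAbs = 2 ^ 8 * 17 := by norm_num
    rw [this]
    exact Nat.Coprime.mul_right (gcd_two_pow hp hp2 8) (gcd_17 hp hp17)
  rw [tam_gen hG hp2 h1 h2 hb hD]
  have e2 : ((-66) ^ 2 - 4 * 1 : ℤ) = 17 * 16 ^ 2 := by norm_num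
  have e1 : jacobiSym ((-66) ^ 2 - 4 * 1) p = jacobiSym 17 p := by
    rw [e2, jacobiSym.mul_left, jacobiSym.sq_one', mul_one]
    rw [Int.gcd_eq_natAbs]
    have : (16 : ℤ).natAbs = 2 ^ 4 := by norm_num
    rw [this, Int.natAbs_natCast]
    exact (gcd_two_pow hp hp2 4).symm
  rw [e1]

end Pool.Agent.H588.I17
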